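import Pool.Agent.H334R2.CM.S.CAR
import Pool.Agent.H334R2.CM.S.ASMG
import Pool.Agent.H334R2.CM.S.ASMH
import Pool.Agent.H334R2.CM.S.ORB
import Pool.Agent.H334R2.CM.S.COMB
set_option autoImplicit false
open scoped Matrix MatrixGroups
universe u
namespace CM

namespace FIN

/-- Cartan matrices may be reindexed -/
lemma reindex {A : Type u} [Ring A] {ι κ : Type} (e : ι ≃ κ) {C : Matrix ι ι ℕ}
    (h : IsCartan A C) : IsCartan A (C.submatrix e.symm e.symm : Matrix κ κ ℕ) := by
  obtain ⟨S, P, h1, h2, h3, h4, h5⟩ := h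
  refine ⟨fun i => S (e.symm i), fun i => P (e.symm i), fun i => h1 _,
    fun i j hij => e.symm.injective (h2 _ _ hij), fun M hM => ?_, fun i => h4 _, fun i j => h5 _ _⟩
  obtain ⟨i, hi⟩ := h3 M hM
  refine ⟨e i, ?_⟩
  change Nonempty (M ≃ₗ[A] S (e.symm (e i)))
  rw [Equiv.symm_apply_apply]
  exact hi

lemma Cm_diag (α β : Type) [DecidableEq α] [DecidableEq β] :
    ∀ i j, i ≠ j → Cm α β i i ≠ Cm α β i j := by
  intro i j hij
  rcases i with i | i | i <;> rcases j with j | j | j
  · have h' : i ≠ j := fun h' => hij (by rw [h'])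
    change C3 i i ≠ C3 i j
    fin_cases i <;> fin_cases j <;> simp_all [C3]
  · have h : ∀ i : Fin 3, C3 i i ≠ 0 := by decide
    exact h i
  · have h : ∀ i : Fin 3, C3 i i ≠ 0 := by decide
    exact h i
  · simp [Cm]
  · have h : i ≠ j := fun h' => hij (by rw [h'])
    simp [Cm, h]
  · simp [Cm]
  · simp [Cm]
  · simp [Cm]
  · have h : i ≠ j := fun h' => hij (by rw [h'])
    simp [Cm, h]

instance finPSL (q : ℕ) [Fact q.Prime] : Finite PSL(2, ZMod q) := by
  have h : Finite (Matrix.SpecialLinearGroup (Fin 2) (ZMod q)) := inferInstance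
  exact Finite.of_surjective (QuotientGroup.mk' (Subgroup.center _)) (QuotientGroup.mk'_surjective _)

lemma card_ge (q : ℕ) (hq : 4 ≤ q) [Fact q.Prime] : 4 ≤ Nat.card (ZMod q) := by
  rw [Nat.card_zmod]; exact hq

lemma nonab (q : ℕ) [Fact q.Prime] (hq : 4 ≤ q) : ∃ a b : PSL(2, ZMod q), a * b ≠ b * a := by
  by_contra hcon
  have hcomm : ∀ a b : PSL(2, ZMod q), a * b = b * a := by
    intro a b
    by_contra h
    exact hcon ⟨a, b, h⟩
  -- the simple group would be cyclic of prime order; use the commutator subgroup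
  have hF : ∃ a : ZMod q, a ≠ 0 ∧ a ^ 2 ≠ 1 := by
    refine ⟨2, ?_, ?_⟩
    · intro h
      have h1 : ((2 : ℕ) : ZMod q) = 0 := by exact_mod_cast h
      rw [ZMod.natCast_eq_zero_iff] at h1
      have := Nat.le_of_dvd (by norm_num) h1
      omega
    · intro h
      have h1 : ((3 : ℕ) : ZMod q) = 0 := by
        push_cast
        have : (2 : ZMod q) ^ 2 - 1 = 0 := by rw [h, sub_self]
        have h3 : (3 : ZMod q) = 2 ^ 2 - 1 := by norm_num
        rw [h3, this]
      rw [ZMod.natCast_eq_zero_iff] at h1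
      have := Nat.le_of_dvd (by norm_num) h1
      omega
  have hc : commutator PSL(2, ZMod q) = ⊤ := SL2Simple.PSL_commutator_eq_top hF
  have hb : commutator PSL(2, ZMod q) = ⊥ := by
    rw [eq_bot_iff, commutator_def, Subgroup.commutator_le]
    intro a _ b _
    rw [Subgroup.mem_bot, commutatorElement_eq_one_iff_mul_comm]
    exact hcomm a b
  rw [hb] at hc
  obtain ⟨a, b, hab⟩ := (SL2Simple.PSL_nontrivial (ι := Fin 2) (F := ZMod q))
  have ha : a ∈ (⊥ : Subgroup PSL(2, ZMod q)) := by rw [hc]; trivial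
  have hb' : b ∈ (⊥ : Subgroup PSL(2, ZMod q)) := by rw [hc]; trivial
  rw [Subgroup.mem_bot] at ha hb'
  exact hab (ha.trans hb'.symm)

instance finSemi {N K : Type} [Group N] [Group K] [Finite N] [Finite K] (φ : K →* MulAut N) :
    Finite (N ⋊[φ] K) := Finite.of_equiv _ SemidirectProduct.equivProd.symm

lemma not_simple {N K : Type} [Group N] [Group K] [Nontrivial N] [Nontrivial K]
    (φ : K →* MulAut N) : ¬ IsSimpleGroup (N ⋊[φ] K) := by
  intro hs
  rcases hs.eq_bot_or_eq_top_of_normal (SemidirectProduct.rightHom (φ := φ)).ker inferInstance with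
    h | h
  · obtain ⟨x, hx⟩ := exists_ne (1 : N)
    have h1 : (SemidirectProduct.inl x : N ⋊[φ] K) ∈ (SemidirectProduct.rightHom (φ := φ)).ker := by
      rw [MonoidHom.mem_ker, SemidirectProduct.rightHom_inl]
    rw [h, Subgroup.mem_bot] at h1
    apply hx
    apply SemidirectProduct.inl_injective (φ := φ)
    rw [h1, map_one]
  · obtain ⟨x, hx⟩ := exists_ne (1 : K)
    have h1 : (SemidirectProduct.inr x : N ⋊[φ] K) ∈ (SemidirectProduct.rightHom (φ := φ)).ker := by
      rw [h]; trivial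
    rw [MonoidHom.mem_ker, SemidirectProduct.rightHom_inr] at h1
    exact hx h1

instance : Nontrivial NN := ⟨⟨⟨fun _ => 1, 0⟩, 1, fun h => by
  have h1 := congrFun (congrArg NN.v h) 0
  exact absurd h1 (by decide)⟩⟩

end FIN

open FIN in
/-- the main theorem -/
theorem FIN : ∃ (G H : Type) (_ : Group G) (_ : Group H) (_ : Finite G) (_ : Finite H),
    IsSimpleGroup G ∧ (∃ a b : G, a * b ≠ b * a) ∧ ¬ Nonempty (G ≃* H) ∧
    ∀ (k : Type u) [Field k] [IsAlgClosed k] [CharP k 2],
      ∃ (r : ℕ) (C : Matrix (Fin r) (Fin r) ℕ),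
        IsCartan (MonoidAlgebra k G) C ∧ IsCartan (MonoidAlgebra k H) C := by
  have p967 : Fact (Nat.Prime 967) := ⟨by norm_num⟩
  have p7 : Fact (Nat.Prime 7) := ⟨by norm_num⟩
  obtain ⟨ρ, h1, h2⟩ := ORB
  have hOD := COMB ρ h1 h2
  have hs : IsSimpleGroup PSL(2, ZMod 967) :=
    Matrix.ProjectiveSpecialLinearGroup.rank_two_simple (card_ge 967 (by norm_num))
  refine ⟨PSL(2, ZMod 967), NN ⋊[actN.comp ρ] PSL(2, ZMod 7), inferInstance, inferInstance,
    inferInstance, inferInstance, hs, nonab 967 (by norm_num), ?_, ?_⟩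
  · rintro ⟨f⟩
    have : Nontrivial PSL(2, ZMod 7) := SL2Simple.PSL_nontrivial (ι := Fin 2) (F := ZMod 7)
    have : Nontrivial (NN ⋊[actN.comp ρ] PSL(2, ZMod 7)) := f.injective.nontrivial
    exact not_simple (actN.comp ρ)
      (IsSimpleGroup.isSimpleGroup_of_surjective f.toMonoidHom f.surjective)
  · intro k _ _ _
    let e : (Fin 3 ⊕ Fin 60 ⊕ Fin 241) ≃ Fin 304 :=
      (Fintype.equivFin _).trans (finCongr (by simp))
    have hG : IdemCartan k (MonoidAlgebra k PSL(2, ZMod 967)) (Cm (Fin 60) (Fin 241)) :=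
      ASMG 967 121 (by decide) (by norm_num) k
    have hK : IdemCartan k (MonoidAlgebra k PSL(2, ZMod 7)) (Cm (Fin 0) (Fin 1)) :=
      ASMG 7 1 (by decide) (by norm_num) k
    have hH : IdemCartan k (MonoidAlgebra k (NN ⋊[actN.comp ρ] PSL(2, ZMod 7)))
        (Cm (Fin 60) (Fin 241)) := ASMH ρ hOD hK
    have f1 : FiniteDimensional k (MonoidAlgebra k PSL(2, ZMod 967)) := by
      infer_instance
    have f2 : FiniteDimensional k (MonoidAlgebra k (NN ⋊[actN.comp ρ] PSL(2, ZMod 7))) := by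
      infer_instance
    exact ⟨304, _, reindex e (CAR (Cm_diag _ _) hG), reindex e (CAR (Cm_diag _ _) hH)⟩

end CM
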