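import Pool.Agent.H334R2.CM.Defs
set_option autoImplicit false
open scoped Matrix MatrixGroups
universe u
namespace CM

namespace GL1

variable {k : Type u} [Field k] {A : Type u} [Ring A] [Algebra k A]

/-- in `eAe` an element of the form `c e + n` with `c ≠ 0` and `n` nilpotent is invertible -/
lemma inv_of {e x : A} (hex : e * x = x) (hxe : x * e = x) (hee : e * e = e) {c : k} (hc : c ≠ 0)
    (hn : IsNilpotent (x - c • e)) : ∃ y : A, e * y = y ∧ y * e = y ∧ y * x = e ∧ x * y = e := by
  set n := x - c • e with hndef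
  have hen : e * n = n := by
    rw [hndef, mul_sub, hex, mul_smul_comm, hee]
  have hne : n * e = n := by
    rw [hndef, sub_mul, hxe, smul_mul_assoc, hee]
  have hx : x = c • (e + c⁻¹ • n) := by
    rw [smul_add, smul_smul, mul_inv_cancel₀ hc, one_smul, hndef]; abel
  have hn' : IsNilpotent (c⁻¹ • n) := hn.smul c⁻¹
  obtain ⟨u, hu⟩ := hn'.isUnit_one_add
  have hce : Commute e (u : A) := by
    rw [hu]
    refine (Commute.one_right e).add_right ?_
    change e * (c⁻¹ • n) = (c⁻¹ • n) * e
    rw [mul_smul_comm, smul_mul_assoc, hen, hne]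
  have hce' : Commute e ((u⁻¹ : Aˣ) : A) := hce.units_inv_right
  have hxu : x = c • ((u : A) * e) := by
    rw [hx, hu, add_mul, one_mul, smul_mul_assoc, hne]
  have hxu' : x = c • (e * (u : A)) := by rw [hxu, hce.eq]
  refine ⟨c⁻¹ • (e * ((u⁻¹ : Aˣ) : A)), ?_, ?_, ?_, ?_⟩
  · rw [mul_smul_comm, ← mul_assoc, hee]
  · rw [smul_mul_assoc, mul_assoc, ← hce'.eq, ← mul_assoc, hee]
  · rw [hxu, smul_mul_smul_comm, inv_mul_cancel₀ hc, one_smul, mul_assoc, Units.inv_mul_cancel_left,
      hee]
  · rw [hxu, smul_mul_smul_comm, mul_inv_cancel₀ hc, one_smul, mul_assoc, ← mul_assoc e e, hee,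
      hce'.eq, Units.mul_inv_cancel_left]

lemma nil_or_inv {e : A} (he : IsLoc k e) {x : A} (hex : e * x = x) (hxe : x * e = x) :
    IsNilpotent x ∨ ∃ y : A, e * y = y ∧ y * e = y ∧ y * x = e ∧ x * y = e := by
  obtain ⟨c, hc⟩ := he.2.2 x ⟨hex, hxe⟩
  by_cases h0 : c = 0
  · left
    rw [h0, zero_smul, sub_zero] at hc
    exact hc
  · right
    exact inv_of hex hxe he.2.1 h0 hc

lemma not_nil {e : A} (he0 : e ≠ 0) {v x : A} (hex : e * x = x) (hv : v * x = e) :
    ¬ IsNilpotent x := by
  rintro ⟨n, hn⟩
  have key : ∀ m : ℕ, v ^ m * (e * x ^ m) = e := by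
    intro m
    induction m with
    | zero => rw [pow_zero, pow_zero, one_mul, mul_one]
    | succ m ih =>
      have h1 : v ^ (m + 1) * (e * x ^ (m + 1)) = v ^ m * ((v * x) * x ^ m) := by
        rw [pow_succ, pow_succ' x, ← mul_assoc e, hex]
        simp only [mul_assoc]
      rw [h1, hv, ih]
  have := key n
  rw [hn, mul_zero, mul_zero] at this
  exact he0 this.symm

lemma nil_add {e : A} (he : IsLoc k e) {x y : A} (hex : e * x = x) (hxe : x * e = x)
    (hey : e * y = y) (hye : y * e = y) (hx : IsNilpotent x) (hy : IsNilpotent y) :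
    IsNilpotent (x + y) := by
  rcases nil_or_inv he (x := x + y) (by rw [mul_add, hex, hey]) (by rw [add_mul, hxe, hye]) with
    h | ⟨z, hez, hze, hz, -⟩
  · exact h
  exfalso
  rw [mul_add] at hz
  -- `z x` is nilpotent
  have hzx : IsNilpotent (z * x) := by
    rcases nil_or_inv he (x := z * x) (by rw [← mul_assoc, hez]) (by rw [mul_assoc, hxe]) with
      h | ⟨w, -, -, hw, -⟩
    · exact h
    · exact absurd hx (not_nil he.1 hex (v := w * z) (by rw [mul_assoc]; exact hw))
  have h2 : z * y = e - z * x := by rw [← hz]; abel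
  -- `z y` is invertible
  obtain ⟨w, -, -, hw, -⟩ := inv_of (k := k) (x := z * y) (e := e) (c := 1)
    (by rw [← mul_assoc, hez]) (by rw [mul_assoc, hye]) he.2.1 one_ne_zero
    (by rw [one_smul, h2]; simpa using hzx.neg)
  exact not_nil he.1 hey (v := w * z) (by rw [mul_assoc]; exact hw) hy

/-- the radical of `A e` -/
def J {e : A} (he : IsLoc k e) : Submodule A (Submodule.span A {e} : Submodule A A) where
  carrier := {x | ∀ a : A, IsNilpotent (e * a * (x : A))}
  add_mem' := by
    intro x y hx hy a
    have hxe : (x : A) * e = x := by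
      obtain ⟨b, hb⟩ := Submodule.mem_span_singleton.1 x.2
      rw [← hb, smul_eq_mul, mul_assoc, he.2.1]
    have hye : (y : A) * e = y := by
      obtain ⟨b, hb⟩ := Submodule.mem_span_singleton.1 y.2
      rw [← hb, smul_eq_mul, mul_assoc, he.2.1]
    have := nil_add he (x := e * a * (x : A)) (y := e * a * (y : A))
      (by rw [← mul_assoc, ← mul_assoc, he.2.1]) (by rw [mul_assoc, hxe])
      (by rw [← mul_assoc, ← mul_assoc, he.2.1]) (by rw [mul_assoc, hye]) (hx a) (hy a)
    rw [← mul_add] at this
    exact this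
  zero_mem' := by
    intro a
    rw [Submodule.coe_zero, mul_zero]
    exact IsNilpotent.zero
  smul_mem' := by
    intro b x hx a
    have := hx (a * b)
    rw [Submodule.coe_smul, smul_eq_mul, ← mul_assoc, mul_assoc e a b]
    exact this

lemma mem_J {e : A} (he : IsLoc k e) {x : (Submodule.span A {e} : Submodule A A)} :
    x ∈ J he ↔ ∀ a : A, IsNilpotent (e * a * (x : A)) := Iff.rfl

lemma span_mul {e : A} (hee : e * e = e) (x : (Submodule.span A {e} : Submodule A A)) :
    (x : A) * e = x := by
  obtain ⟨b, hb⟩ := Submodule.mem_span_singleton.1 x.2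
  rw [← hb, smul_eq_mul, mul_assoc, hee]

/-- the generator -/
def gen (e : A) : (Submodule.span A {e} : Submodule A A) := ⟨e, Submodule.mem_span_singleton_self e⟩

lemma gen_notMem {e : A} (he : IsLoc k e) : gen e ∉ J he := by
  intro h
  have := (mem_J he).1 h 1
  rw [mul_one] at this
  change IsNilpotent (e * e) at this
  rw [he.2.1] at this
  exact not_nil he.1 he.2.1 (v := e) he.2.1 this

lemma eq_top_of_gen {e : A} (hee : e * e = e) (X : Submodule A (Submodule.span A {e} : Submodule A A))
    (h : gen e ∈ X) : X = ⊤ := by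
  rw [eq_top_iff]
  rintro x -
  have h1 : x = (x : A) • gen e := by
    ext
    rw [Submodule.coe_smul, smul_eq_mul]
    exact (span_mul hee x).symm
  rw [h1]
  exact X.smul_mem _ h

lemma le_J_or {e : A} (he : IsLoc k e) (X : Submodule A (Submodule.span A {e} : Submodule A A)) :
    X ≤ J he ∨ X = ⊤ := by
  by_cases h : X ≤ J he
  · exact Or.inl h
  right
  rw [SetLike.not_le_iff_exists] at h
  obtain ⟨x, hx, hxJ⟩ := h
  rw [mem_J] at hxJ
  rw [not_forall] at hxJ
  obtain ⟨a, ha⟩ := hxJ
  rcases nil_or_inv he (x := e * a * (x : A)) (by rw [← mul_assoc, ← mul_assoc, he.2.1])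
    (by rw [mul_assoc, span_mul he.2.1]) with h | ⟨y, -, -, hy, -⟩
  · exact absurd h ha
  · apply eq_top_of_gen he.2.1
    have h1 : gen e = (y * (e * a)) • x := by
      ext
      rw [Submodule.coe_smul, smul_eq_mul, mul_assoc, hy]
      rfl
    rw [h1]
    exact X.smul_mem _ hx

lemma J_ne_top {e : A} (he : IsLoc k e) : J he ≠ ⊤ := by
  intro h
  apply gen_notMem he
  rw [h]
  trivial

lemma J_coatom {e : A} (he : IsLoc k e) : IsCoatom (J he) := by
  refine ⟨J_ne_top he, fun X hX => ?_⟩
  rcases le_J_or he X with h | h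
  · exact absurd h (not_le_of_gt hX)
  · exact h

end GL1

/-- the projective module `A e` of a local idempotent has a simple top -/
theorem GL1 {k : Type u} [Field k] {A : Type u} [Ring A] [Algebra k A] (e : A) (he : IsLoc k e) :
    ∃ (S : Type u) (_ : AddCommGroup S) (_ : Module A S)
      (π : (Submodule.span A {e} : Submodule A A) →ₗ[A] S),
      IsSimpleModule A S ∧ IsProjCover A π ∧
      ∀ (M : Type u) [AddCommGroup M] [Module A M], IsSimpleModule A M →
        ((∃ m : M, e • m ≠ 0) ↔ Nonempty (M ≃ₗ[A] S)) := by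
  refine ⟨(Submodule.span A {e} : Submodule A A) ⧸ GL1.J he, inferInstance, inferInstance,
    (GL1.J he).mkQ, ?_, ?_, ?_⟩
  · exact isSimpleModule_iff_isCoatom.2 (GL1.J_coatom he)
  · refine ⟨?_, Submodule.mkQ_surjective _, ?_⟩
    · refine Module.Projective.of_split (Submodule.span A {e} : Submodule A A).subtype
        (LinearMap.toSpanSingleton A _ (GL1.gen e)) ?_
      ext x
      rw [LinearMap.comp_apply, LinearMap.toSpanSingleton_apply, Submodule.subtype_apply,
        Submodule.coe_smul, smul_eq_mul]
      exact GL1.span_mul he.2.1 x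
    · intro X hX
      rw [Submodule.ker_mkQ] at hX
      rcases GL1.le_J_or he X with h | h
      · rw [sup_eq_right.2 h] at hX
        exact absurd hX (GL1.J_ne_top he)
      · exact h
  · intro M _ _ hM
    constructor
    · rintro ⟨m, hm⟩
      set f : (Submodule.span A {e} : Submodule A A) →ₗ[A] M :=
        (LinearMap.toSpanSingleton A M m).comp (Submodule.span A {e} : Submodule A A).subtype
        with hf
      have hfe : f (GL1.gen e) = e • m := rfl
      have hf0 : f ≠ 0 := by
        intro h
        apply hm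
        rw [← hfe, h, LinearMap.zero_apply]
      have hsurj : Function.Surjective f := LinearMap.surjective_of_ne_zero hf0
      let g := f.quotKerEquivOfSurjective hsurj
      have hsimp : IsSimpleModule A ((Submodule.span A {e} : Submodule A A) ⧸ LinearMap.ker f) :=
        IsSimpleModule.congr g
      have hco : IsCoatom (LinearMap.ker f) := isSimpleModule_iff_isCoatom.1 hsimp
      have hker : LinearMap.ker f = GL1.J he := by
        rcases GL1.le_J_or he (LinearMap.ker f) with h | h
        · exact ((hco.le_iff.1 h).resolve_left (GL1.J_ne_top he)).symm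
        · exact absurd h hco.1
      exact ⟨g.symm.trans (Submodule.quotEquivOfEq _ _ hker)⟩
    · rintro ⟨g⟩
      refine ⟨g.symm (Submodule.Quotient.mk (GL1.gen e)), ?_⟩
      rw [← map_smul, ← Submodule.Quotient.mk_smul]
      have h1 : e • GL1.gen e = GL1.gen e := by
        ext
        exact he.2.1
      rw [h1]
      intro h
      have h2 := g.symm.map_eq_zero_iff.1 h
      rw [Submodule.Quotient.mk_eq_zero] at h2
      exact GL1.gen_notMem he h2

end CM
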